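import Pool.Agent.NL.StmtsM

set_option autoImplicit false

open MeasureTheory Filter Topology Set

noncomputable section

namespace Pool.Agent.NL.H99

open Pool.Agent.NL

lemma exists_F (X : Type) [NormedAddCommGroup X] [NormedSpace ℝ X]
    [TopologicalSpace.SeparableSpace X] :
    ∃ F : ℕ → StrongDual ℝ X, (∀ k, ‖F k‖ ≤ 1) ∧
      ∀ (x : X) (C : ℝ), (∀ k, |F k x| ≤ C) → ‖x‖ ≤ C := by
  have h := fun k => exists_dual_vector'' ℝ (TopologicalSpace.denseSeq X k)
  choose F hF1 hF2 using h
  refine ⟨F, hF1, fun x C hC => ?_⟩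
  refine le_of_forall_pos_le_add fun ε hε => ?_
  obtain ⟨k, hk⟩ := (TopologicalSpace.denseRange_denseSeq X).exists_dist_lt x
    (show 0 < ε / 2 by linarith)
  rw [dist_eq_norm] at hk
  have h1 : ‖TopologicalSpace.denseSeq X k‖ ≤ C + ‖x - TopologicalSpace.denseSeq X k‖ := by
    have h2 : F k (TopologicalSpace.denseSeq X k) =
        F k x - F k (x - TopologicalSpace.denseSeq X k) := by
      rw [map_sub]
      ring
    have h3 : |F k (x - TopologicalSpace.denseSeq X k)| ≤
        ‖x - TopologicalSpace.denseSeq X k‖ := by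
      have := (F k).le_of_opNorm_le (hF1 k) (x - TopologicalSpace.denseSeq X k)
      rwa [one_mul, Real.norm_eq_abs] at this
    have h4 := hF2 k
    have h5 : F k (TopologicalSpace.denseSeq X k) ≤
        |F k x| + |F k (x - TopologicalSpace.denseSeq X k)| := by
      rw [h2]
      have := neg_abs_le (F k (x - TopologicalSpace.denseSeq X k))
      have := le_abs_self (F k x)
      linarith
    have h6 := hC k
    have h7 : ‖TopologicalSpace.denseSeq X k‖ = F k (TopologicalSpace.denseSeq X k) := by
      rw [h4]
      rfl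
    rw [h7]
    linarith
  have h8 : ‖x‖ ≤ ‖TopologicalSpace.denseSeq X k‖ + ‖x - TopologicalSpace.denseSeq X k‖ := by
    have := norm_add_le (TopologicalSpace.denseSeq X k) (x - TopologicalSpace.denseSeq X k)
    rwa [add_sub_cancel] at this
  linarith

theorem set : SetStmt := by
  intro X _ _ _ f hf
  obtain ⟨F, hF, hN⟩ := exists_F X
  have hb : ∀ (x : X) k, ‖F k x‖ ≤ ‖x‖ := by
    intro x k
    have := (F k).le_of_opNorm_le (hF k) x
    rwa [one_mul] at this
  have hlip : ∀ k, LipschitzWith 1 fun t => F k (f t) := by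
    intro k
    refine LipschitzWith.of_dist_le_mul fun s t => ?_
    rw [dist_eq_norm, ← map_sub]
    refine (hb _ k).trans ?_
    have := hf.dist_le_mul s t
    rwa [dist_eq_norm] at this
  have hd : ∀ k w, |deriv (fun t => F k (f t)) w| ≤ 1 := by
    intro k w
    have := norm_deriv_le_of_lipschitz (x₀ := w) (hlip k)
    simpa using this
  have hG : ∀ w k, max (-1) (min 1 (deriv (fun t => F k (f t)) w)) =
      deriv (fun t => F k (f t)) w := by
    intro w k
    have := abs_le.1 (hd k w)
    rw [min_eq_right this.2, max_eq_right this.1]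
  let G : ℝ → Z := fun w => BoundedContinuousFunction.ofNormedAddCommGroupDiscrete
    (fun k => deriv (fun t => F k (f t)) w) 1 (fun k => by
      rw [Real.norm_eq_abs]
      exact hd k w)
  let Ψ₀ : X →ₗ[ℝ] Z :=
    { toFun := fun x => BoundedContinuousFunction.ofNormedAddCommGroupDiscrete
        (fun k => F k x) ‖x‖ (fun k => hb x k)
      map_add' := by
        intro x y
        ext k
        simp
      map_smul' := by
        intro c x
        ext k
        simp }
  have hn : ∀ x, ‖Ψ₀ x‖ = ‖x‖ := by
    intro x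
    refine le_antisymm ?_ ?_
    · exact (BoundedContinuousFunction.norm_le (norm_nonneg x)).2 fun k => hb x k
    · refine hN x _ fun k => ?_
      have := (Ψ₀ x).norm_coe_le_norm k
      exact this
  let Ψ : X →ₗᵢ[ℝ] Z := ⟨Ψ₀, hn⟩
  refine ⟨F, G, Ψ, ⟨hf, hF, fun x k => rfl, ?_, ?_, ?_⟩, ?_⟩
  · intro w
    exact (BoundedContinuousFunction.norm_le zero_le_one).2 fun k => by
      rw [Real.norm_eq_abs]
      exact hd k w
  · intro k
    exact measurable_deriv _
  · intro a b hab k
    have h1 : AbsolutelyContinuousOnInterval (fun t => F k (f t)) a b :=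
      ((hlip k).lipschitzOnWith).absolutelyContinuousOnInterval
    exact (h1.integral_deriv_eq_sub).symm
  · rw [ae_all_iff]
    intro k
    filter_upwards [(hlip k).ae_differentiableAt_real] with w hw
    exact hw.hasDerivAt

end Pool.Agent.NL.H99
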